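import Mathlib

/-!
# Martin's axiom for countable posets below `cov(meager)` of the real line

If a family of meagre subsets of `ℝ` indexed by `ι` never covers `ℝ`, then for every countable
preorder `P` and every `ι`-indexed family of dense subsets of `P` there is a decreasing sequence
in `P` meeting all of them.
-/

set_option autoImplicit false

namespace Pool.Agent.H817R3

open Set Filter Topology

/-- A meagre set avoids the intersection of a decreasing sequence of dense open sets. -/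
theorem exists_seq_of_isMeagre {Y : Type*} [TopologicalSpace Y] {s : Set Y} (hs : IsMeagre s) :
    ∃ O : ℕ → Set Y, (∀ m, IsOpen (O m)) ∧ (∀ m, Dense (O m)) ∧ Antitone O ∧
      ∀ x, (∀ m, x ∈ O m) → x ∉ s := by
  have hs' : sᶜ ∈ residual Y := hs
  rw [mem_residual_iff] at hs'
  obtain ⟨S, hSo, hSd, hSc, hSs⟩ := hs'
  -- enumerate `S ∪ {univ}`
  obtain ⟨f, hf⟩ := (hSc.insert univ).exists_eq_range (insert_nonempty _ _)
  have hfo : ∀ n, IsOpen (f n) := by
    intro n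
    have : f n ∈ insert univ S := hf ▸ mem_range_self n
    rcases this with h | h
    · rw [h]; exact isOpen_univ
    · exact hSo _ h
  have hfd : ∀ n, Dense (f n) := by
    intro n
    have : f n ∈ insert univ S := hf ▸ mem_range_self n
    rcases this with h | h
    · rw [h]; exact dense_univ
    · exact hSd _ h
  let O : ℕ → Set Y := fun m => Nat.rec (f 0) (fun k A => A ∩ f (k + 1)) m
  have hO0 : O 0 = f 0 := rfl
  have hOs : ∀ m, O (m + 1) = O m ∩ f (m + 1) := fun m => rfl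
  have hOo : ∀ m, IsOpen (O m) := by
    intro m
    induction m with
    | zero => exact hfo 0
    | succ k ih => rw [hOs]; exact ih.inter (hfo _)
  have hOd : ∀ m, Dense (O m) := by
    intro m
    induction m with
    | zero => exact hfd 0
    | succ k ih => rw [hOs]; exact ih.inter_of_isOpen_left (hfd _) (hOo k)
  refine ⟨O, hOo, hOd, antitone_nat_of_succ_le (fun m => by rw [hOs]; exact inter_subset_left), ?_⟩
  intro x hx hxs
  refine hSs ?_ hxs
  intro t ht
  have : t ∈ range f := hf ▸ mem_insert_of_mem _ ht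
  obtain ⟨n, rfl⟩ := this
  have := hx n
  cases n with
  | zero => exact this
  | succ k => rw [hOs] at this; exact this.2

section MA

variable {P : Type} [Preorder P]

open Classical in
/-- One step of the reading process: a zero increases the counter, a nonzero bit tries to move to
the condition with the number given by the counter. -/
noncomputable def nextSt (e : ℕ → P) (s : P × ℕ) (b : ℤ) : P × ℕ :=
  if b = 0 then (s.1, s.2 + 1) else (if e s.2 ≤ s.1 then e s.2 else s.1, 0)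

/-- State after reading the first `n` binary digits (after the integral part) of `r`. -/
noncomputable def St (e : ℕ → P) (r : ℝ) : ℕ → P × ℕ
  | 0 => (e 0, 0)
  | n + 1 => nextSt e (St e r n) (⌊2 ^ (n + 1) * r⌋ % 2)

theorem St_antitone (e : ℕ → P) (r : ℝ) : Antitone (fun n => (St e r n).1) := by
  apply antitone_nat_of_succ_le
  intro n
  simp only [St, nextSt]
  split_ifs
  · exact le_rfl
  · assumption
  · exact le_rfl

theorem floor_half (x : ℝ) : ⌊x⌋ = ⌊2 * x⌋ / 2 := by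
  rw [Int.floor_eq_iff]
  have h1 : (⌊2 * x⌋ : ℝ) ≤ 2 * x := Int.floor_le _
  have h2 : 2 * x < (⌊2 * x⌋ : ℝ) + 1 := Int.lt_floor_add_one _
  have h3 : 2 * (⌊2 * x⌋ / 2) ≤ ⌊2 * x⌋ := by omega
  have h4 : ⌊2 * x⌋ + 1 ≤ 2 * (⌊2 * x⌋ / 2) + 2 := by omega
  have h3' : (2 * ((⌊2 * x⌋ / 2 : ℤ) : ℝ)) ≤ (⌊2 * x⌋ : ℝ) := by exact_mod_cast h3
  have h4' : (⌊2 * x⌋ : ℝ) + 1 ≤ 2 * ((⌊2 * x⌋ / 2 : ℤ) : ℝ) + 2 := by exact_mod_cast h4
  constructor <;> linarith

theorem floor_succ_eq {r r' : ℝ} {n : ℕ} (h : ⌊2 ^ (n + 1) * r⌋ = ⌊2 ^ (n + 1) * r'⌋) :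
    ⌊2 ^ n * r⌋ = ⌊2 ^ n * r'⌋ := by
  rw [floor_half (2 ^ n * r), floor_half (2 ^ n * r')]
  have e1 : 2 * (2 ^ n * r) = 2 ^ (n + 1) * r := by ring
  have e2 : 2 * (2 ^ n * r') = 2 ^ (n + 1) * r' := by ring
  rw [e1, e2, h]

theorem floor_mono_eq {r r' : ℝ} {n n' : ℕ} (hn : n ≤ n')
    (h : ⌊2 ^ n' * r⌋ = ⌊2 ^ n' * r'⌋) : ⌊2 ^ n * r⌋ = ⌊2 ^ n * r'⌋ := by
  induction n', hn using Nat.le_induction with
  | base => exact h
  | succ k _ ih => exact ih (floor_succ_eq h)

theorem St_congr (e : ℕ → P) {r r' : ℝ} {n : ℕ} (h : ⌊2 ^ n * r⌋ = ⌊2 ^ n * r'⌋) :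
    St e r n = St e r' n := by
  induction n with
  | zero => rfl
  | succ k ih =>
    simp only [St]
    rw [ih (floor_succ_eq h), h]

/-- One can prescribe the next bit. -/
theorem exists_bit (r : ℝ) (n : ℕ) (b : ℤ) (hb0 : 0 ≤ b) (hb1 : b ≤ 1) :
    ∃ r' : ℝ, ⌊2 ^ n * r'⌋ = ⌊2 ^ n * r⌋ ∧ ⌊2 ^ (n + 1) * r'⌋ % 2 = b := by
  have hp : (0 : ℝ) < 2 ^ (n + 1) := by positivity
  let k : ℤ := 2 * ⌊2 ^ n * r⌋ + b
  have hk : ⌊2 ^ (n + 1) * ((k : ℝ) / 2 ^ (n + 1))⌋ = k := by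
    rw [mul_div_cancel₀ _ hp.ne']
    exact Int.floor_intCast k
  refine ⟨(k : ℝ) / 2 ^ (n + 1), ?_, ?_⟩
  · rw [floor_half (2 ^ n * ((k : ℝ) / 2 ^ (n + 1)))]
    have e1 : 2 * (2 ^ n * ((k : ℝ) / 2 ^ (n + 1))) = 2 ^ (n + 1) * ((k : ℝ) / 2 ^ (n + 1)) := by
      ring
    rw [e1, hk]
    simp only [k]
    omega
  · rw [hk]
    simp only [k]
    omega

theorem exists_counter (e : ℕ → P) (k : ℕ) (d : ℕ) : ∀ (r : ℝ) (n : ℕ), (St e r n).2 + d = k →
    ∃ (n' : ℕ) (r' : ℝ), n ≤ n' ∧ ⌊2 ^ n * r'⌋ = ⌊2 ^ n * r⌋ ∧ St e r' n' = ((St e r n).1, k) := by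
  induction d with
  | zero =>
    intro r n h
    refine ⟨n, r, le_rfl, rfl, ?_⟩
    rw [← h]
    rfl
  | succ d ih =>
    intro r n h
    obtain ⟨r1, h1, h2⟩ := exists_bit r n 0 le_rfl zero_le_one
    have hs : St e r1 (n + 1) = ((St e r n).1, (St e r n).2 + 1) := by
      simp only [St]
      rw [St_congr e h1, h2]
      simp [nextSt]
    obtain ⟨n', r2, hn, h3, h4⟩ := ih r1 (n + 1) (by rw [hs]; simp only; omega)
    refine ⟨n', r2, by omega, ?_, ?_⟩
    · rw [← h1]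
      exact floor_succ_eq h3
    · rw [h4, hs]

theorem exists_steer (e : ℕ → P) (he : ∀ q k0, ∃ k ≥ k0, e k = q) (r : ℝ) (n : ℕ) (q : P)
    (hq : q ≤ (St e r n).1) :
    ∃ (n' : ℕ) (r' : ℝ), n ≤ n' ∧ ⌊2 ^ n * r'⌋ = ⌊2 ^ n * r⌋ ∧ (St e r' n').1 = q := by
  obtain ⟨k, hk, rfl⟩ := he q (St e r n).2
  obtain ⟨d, hd⟩ := Nat.exists_eq_add_of_le hk
  obtain ⟨n1, r1, hn1, h1, h2⟩ := exists_counter e k d r n hd.symm
  obtain ⟨r2, h3, h4⟩ := exists_bit r1 n1 1 zero_le_one le_rfl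
  refine ⟨n1 + 1, r2, by omega, ?_, ?_⟩
  · rw [← h1]
    exact floor_mono_eq hn1 h3
  · simp only [St]
    rw [St_congr e h3, h4, h2]
    simp [nextSt, hq]

/-- Martin's axiom for countable posets and families of dense sets indexed by `ι`, when no
`ι`-indexed family of meagre sets covers the real line. -/
theorem ma_countable {ι : Type} [Countable P] [Nonempty P]
    (hcov : ∀ M : ι → Set ℝ, (∀ i, IsMeagre (M i)) → (⋃ i, M i) ≠ Set.univ)
    (D : ι → Set P) (hD : ∀ i p, ∃ q ≤ p, q ∈ D i) :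
    ∃ p : ℕ → P, Antitone p ∧ ∀ i, ∃ n, p n ∈ D i := by
  obtain ⟨e0, he0⟩ := exists_surjective_nat P
  let e : ℕ → P := fun k => e0 (Nat.unpair k).1
  have he : ∀ q k0, ∃ k ≥ k0, e k = q := by
    intro q k0
    obtain ⟨j, rfl⟩ := he0 q
    refine ⟨Nat.pair j k0, Nat.right_le_pair _ _, ?_⟩
    simp [e]
  let O : ι → Set ℝ := fun i => {r | ∃ n, (St e r n).1 ∈ D i}
  have hO : ∀ i, IsMeagre (O i)ᶜ := by
    intro i
    have hdense : Dense (interior (O i)) := by
      rw [dense_iff_inter_open]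
      rintro V hV ⟨r0, hr0⟩
      obtain ⟨ε, hε, hball⟩ := Metric.isOpen_iff.1 hV r0 hr0
      obtain ⟨n, hn⟩ := exists_pow_lt_of_lt_one hε (by norm_num : (1 / 2 : ℝ) < 1)
      obtain ⟨q, hq, hqD⟩ := hD i (St e r0 n).1
      obtain ⟨n', r1, hnn, h1, h2⟩ := exists_steer e he r0 n q hq
      have hp : (0 : ℝ) < 2 ^ n' := by positivity
      let m : ℤ := ⌊2 ^ n' * r1⌋
      have hfl : ∀ r ∈ Ioo ((m : ℝ) / 2 ^ n') (((m : ℝ) + 1) / 2 ^ n'), ⌊2 ^ n' * r⌋ = m := by
        intro r hr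
        rw [Int.floor_eq_iff]
        have h3 := (div_lt_iff₀ hp).1 hr.1
        have h4 := (lt_div_iff₀ hp).1 hr.2
        constructor
        · linarith
        · linarith
      have hsub : Ioo ((m : ℝ) / 2 ^ n') (((m : ℝ) + 1) / 2 ^ n') ⊆ interior (O i) := by
        apply interior_maximal _ isOpen_Ioo
        intro r hr
        refine ⟨n', ?_⟩
        rw [St_congr e (hfl r hr), h2]
        exact hqD
      have hne : ((m : ℝ) / 2 ^ n') < (((m : ℝ) + 1) / 2 ^ n') := by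
        apply div_lt_div_of_pos_right _ hp
        linarith
      obtain ⟨r, hr⟩ := nonempty_Ioo.2 hne
      refine ⟨r, hball ?_, hsub hr⟩
      have h5 : ⌊2 ^ n * r⌋ = ⌊2 ^ n * r0⌋ := by
        rw [← h1]
        exact floor_mono_eq hnn (hfl r hr)
      rw [Metric.mem_ball, Real.dist_eq]
      have hpn : (0 : ℝ) < 2 ^ n := by positivity
      have h6 := Int.abs_sub_lt_one_of_floor_eq_floor h5
      have h7 : |2 ^ n * r - 2 ^ n * r0| = 2 ^ n * |r - r0| := by
        rw [← mul_sub, abs_mul, abs_of_pos hpn]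
      rw [h7] at h6
      have h8 : |r - r0| < (1 / 2) ^ n := by
        rw [one_div, inv_pow, ← one_div, lt_div_iff₀ hpn]
        linarith
      linarith
    have h9 : O i ∈ residual ℝ :=
      mem_of_superset (residual_of_dense_open isOpen_interior hdense) interior_subset
    unfold IsMeagre
    rwa [compl_compl]
  have hne := hcov (fun i => (O i)ᶜ) hO
  rw [Set.ne_univ_iff_exists_notMem] at hne
  obtain ⟨r, hr⟩ := hne
  refine ⟨fun n => (St e r n).1, St_antitone e r, ?_⟩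
  intro i
  by_contra hcon
  apply hr
  rw [mem_iUnion]
  exact ⟨i, hcon⟩

end MA

/-- From `ι` to `Finset ι × ℕ`. -/
theorem cov_finset {ι : Type}
    (hcov : ∀ M : ι → Set ℝ, (∀ i, IsMeagre (M i)) → (⋃ i, M i) ≠ Set.univ) :
    ∀ M : (Finset ι × ℕ) → Set ℝ, (∀ i, IsMeagre (M i)) → (⋃ i, M i) ≠ Set.univ := by
  intro M hM
  rcases finite_or_infinite ι with hfin | hinf
  · have hm : IsMeagre (⋃ i, M i) := isMeagre_iUnion hM
    intro h
    rw [h] at hm
    exact not_isMeagre_of_isOpen isOpen_univ univ_nonempty hm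
  · have hc : Cardinal.mk (Finset ι × ℕ) = Cardinal.mk ι := by
      rw [Cardinal.mk_prod, Cardinal.lift_uzero, Cardinal.lift_uzero,
        Cardinal.mk_finset_of_infinite, Cardinal.mk_nat]
      exact Cardinal.mul_aleph0_eq (Cardinal.aleph0_le_mk ι)
    obtain ⟨e⟩ := Cardinal.eq.1 hc
    have := hcov (fun i => M (e.symm i)) (fun i => hM _)
    intro h
    apply this
    rw [← h]
    exact e.symm.surjective.iUnion_comp M

end Pool.Agent.H817R3
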