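import Mathlib

/-!
# Shrinking finitely many basic open sets to meet finitely many requirements
-/

set_option autoImplicit false

namespace Pool.Agent.H817R3

open Set Filter Topology

section Shrink

variable {X : Type} [MetricSpace X]

/-- `b` is an enumeration of nonempty open sets which form a base in a strong sense. -/
structure GoodBase (b : ℕ → Set X) : Prop where
  isOpen : ∀ k, IsOpen (b k)
  nonempty : ∀ k, (b k).Nonempty
  pick : ∀ (V : Set X) (x : X) (δ : ℝ), IsOpen V → x ∈ V → 0 < δ →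
    ∃ k, x ∈ b k ∧ closure (b k) ⊆ V ∧ ∀ y ∈ b k, ∀ z ∈ b k, dist y z < δ

theorem exists_goodBase [SecondCountableTopology X] [Nonempty X] :
    ∃ b : ℕ → Set X, GoodBase b := by
  obtain ⟨u, hu⟩ := TopologicalSpace.exists_dense_seq X
  refine ⟨fun k => Metric.ball (u (Nat.unpair k).1) (1 / (((Nat.unpair k).2 : ℝ) + 1)), ?_, ?_, ?_⟩
  · intro k
    exact Metric.isOpen_ball
  · intro k
    exact ⟨u (Nat.unpair k).1, Metric.mem_ball_self (by positivity)⟩
  · intro V x δ hV hx hδ
    obtain ⟨ε, hε, hball⟩ := Metric.isOpen_iff.1 hV x hx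
    obtain ⟨n, hn⟩ := exists_nat_one_div_lt (show (0 : ℝ) < min (ε / 2) (δ / 2) by positivity)
    have hpos : (0 : ℝ) < 1 / ((n : ℝ) + 1) := by positivity
    obtain ⟨a, ha⟩ := hu.exists_dist_lt x hpos
    have h1 := lt_min_iff.1 hn
    refine ⟨Nat.pair a n, ?_, ?_, ?_⟩
    · simp only [Nat.unpair_pair]
      rw [Metric.mem_ball]
      exact ha
    · simp only [Nat.unpair_pair]
      refine Metric.closure_ball_subset_closedBall.trans ?_
      intro y hy
      apply hball
      rw [Metric.mem_closedBall] at hy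
      rw [Metric.mem_ball]
      calc dist y x ≤ dist y (u a) + dist (u a) x := dist_triangle _ _ _
        _ < ε / 2 + ε / 2 := by
          rw [dist_comm (u a) x]
          linarith [h1.1]
        _ = ε := by ring
    · simp only [Nat.unpair_pair]
      intro y hy z hz
      rw [Metric.mem_ball] at hy hz
      calc dist y z ≤ dist y (u a) + dist (u a) z := dist_triangle _ _ _
        _ < δ / 2 + δ / 2 := by
          rw [dist_comm (u a) z]
          linarith [h1.2]
        _ = δ := by ring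

/-- `w2` shrinks `w1`. -/
def Shr (b : ℕ → Set X) (w2 w1 : ℕ → ℕ) : Prop :=
  ∀ c, b (w2 c) ⊆ b (w1 c)

theorem Shr.refl (b : ℕ → Set X) (w : ℕ → ℕ) : Shr b w w := fun _ => subset_rfl

theorem Shr.trans {b : ℕ → Set X} {w3 w2 w1 : ℕ → ℕ} (h : Shr b w3 w2) (h' : Shr b w2 w1) :
    Shr b w3 w1 := fun c => (h c).trans (h' c)

/-- Finitely many requirements can be met simultaneously. -/
theorem exists_shr_finset {b : ℕ → Set X} {α : Type*} (Req : α → (ℕ → ℕ) → Prop)
    (mono : ∀ a w w', Shr b w' w → Req a w → Req a w')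
    (ach : ∀ a w, ∃ w', Shr b w' w ∧ Req a w') (S : Finset α) :
    ∀ w, ∃ w', Shr b w' w ∧ ∀ a ∈ S, Req a w' := by
  classical
  induction S using Finset.induction_on with
  | empty => exact fun w => ⟨w, Shr.refl b w, by simp⟩
  | insert a S _ ih =>
    intro w
    obtain ⟨w1, h1, h2⟩ := ach a w
    obtain ⟨w2, h3, h4⟩ := ih w1
    refine ⟨w2, h3.trans h1, ?_⟩
    intro a' ha'
    rcases Finset.mem_insert.1 ha' with rfl | h
    · exact mono _ _ _ h3 h2
    · exact h4 _ h

/-- Shrinking a box into a dense open set. -/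
theorem exists_shr_box {b : ℕ → Set X} (hb : GoodBase b) {n : ℕ} {O : Set (Fin n → X)}
    (hO : IsOpen O) (hd : Dense O) (σ : Fin n → ℕ) (hσ : Function.Injective σ) (w : ℕ → ℕ) :
    ∃ w', Shr b w' w ∧ ∀ x : Fin n → X, (∀ k, x k ∈ b (w' (σ k))) → x ∈ O := by
  classical
  have hbox : IsOpen (Set.pi univ (fun k : Fin n => b (w (σ k)))) :=
    isOpen_set_pi finite_univ (fun k _ => hb.isOpen _)
  have hboxne : (Set.pi univ (fun k : Fin n => b (w (σ k)))).Nonempty :=
    univ_pi_nonempty_iff.2 (fun k => hb.nonempty _)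
  obtain ⟨z, hz1, hz2⟩ := hd.inter_open_nonempty _ hbox hboxne
  obtain ⟨V, hV1, hV2⟩ := isOpen_pi_iff'.1 (hbox.inter hO) z ⟨hz1, hz2⟩
  have hp : ∀ k : Fin n, ∃ κ, z k ∈ b κ ∧ closure (b κ) ⊆ V k ∩ b (w (σ k)) ∧
      ∀ y ∈ b κ, ∀ z ∈ b κ, dist y z < 1 := fun k =>
    hb.pick _ (z k) 1 ((hV1 k).1.inter (hb.isOpen _)) ⟨(hV1 k).2, hz1 k (mem_univ k)⟩ one_pos
  choose κ h1 h2 h3 using hp
  refine ⟨Function.extend σ κ w, ?_, ?_⟩
  · intro c
    by_cases hc : ∃ k, σ k = c
    · obtain ⟨k, rfl⟩ := hc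
      rw [hσ.extend_apply]
      exact (subset_closure.trans (h2 k)).trans inter_subset_right
    · rw [Function.extend_apply' _ _ _ hc]
  · intro x hx
    have hxV : x ∈ Set.pi univ V := by
      intro k _
      have := hx k
      rw [hσ.extend_apply] at this
      exact (subset_closure.trans (h2 k)).trans inter_subset_left this
    exact (hV2 hxV).2

/-- Separating two of the open sets. -/
theorem exists_shr_disjoint {b : ℕ → Set X} (hb : GoodBase b)
    (hcr : ∀ x : X, (nhdsWithin x {x}ᶜ).NeBot) (c c' : ℕ) (hcc : c ≠ c') (w : ℕ → ℕ) :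
    ∃ w', Shr b w' w ∧ Disjoint (b (w' c)) (b (w' c')) := by
  classical
  obtain ⟨y, hy⟩ := hb.nonempty (w c)
  obtain ⟨y1, hy1⟩ := hb.nonempty (w c')
  have : ∃ z ∈ b (w c'), z ≠ y := by
    by_cases h : y1 = y
    · subst h
      have hne := hcr y1
      have hmem : b (w c') ∈ nhdsWithin y1 {y1}ᶜ :=
        mem_nhdsWithin_of_mem_nhds ((hb.isOpen _).mem_nhds hy1)
      obtain ⟨z, hz1, hz2⟩ := hne.nonempty_of_mem (inter_mem hmem self_mem_nhdsWithin)
      exact ⟨z, hz1, hz2⟩
    · exact ⟨y1, hy1, h⟩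
  obtain ⟨z, hz, hzy⟩ := this
  obtain ⟨U, V, hU, hV, hyU, hzV, hUV⟩ := t2_separation hzy.symm
  obtain ⟨k, hk1, hk2, -⟩ := hb.pick (U ∩ b (w c)) y 1 (hU.inter (hb.isOpen _)) ⟨hyU, hy⟩ one_pos
  obtain ⟨l, hl1, hl2, -⟩ := hb.pick (V ∩ b (w c')) z 1 (hV.inter (hb.isOpen _)) ⟨hzV, hz⟩ one_pos
  refine ⟨Function.update (Function.update w c k) c' l, ?_, ?_⟩
  · intro d
    by_cases hd : d = c'
    · subst hd
      rw [Function.update_self]
      exact (subset_closure.trans hl2).trans inter_subset_right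
    · rw [Function.update_of_ne hd]
      by_cases hd' : d = c
      · subst hd'
        rw [Function.update_self]
        exact (subset_closure.trans hk2).trans inter_subset_right
      · rw [Function.update_of_ne hd']
  · rw [Function.update_self, Function.update_of_ne hcc, Function.update_self]
    exact hUV.mono ((subset_closure.trans hk2).trans inter_subset_left)
      ((subset_closure.trans hl2).trans inter_subset_left)

/-- A level `w` of the scheme at stage `m`, over the previous level `w'`. -/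
structure Level (b : ℕ → Set X) (m : ℕ) (w' w : ℕ → ℕ) : Prop where
  diam : ∀ c ≤ m, ∀ y ∈ b (w c), ∀ z ∈ b (w c), dist y z < 1 / ((m : ℝ) + 1)
  disj : ∀ c ≤ m, ∀ c' ≤ m, c ≠ c' → Disjoint (b (w c)) (b (w c'))
  next : ∀ c < m, closure (b (w c)) ⊆ b (w' c)
  start : closure (b (w m)) ⊆ b (Nat.unpair m).1

theorem Level.congr {b : ℕ → Set X} {m : ℕ} {w' w v' v : ℕ → ℕ} (h : Level b m w' w)
    (h1 : ∀ c < m, v' c = w' c) (h2 : ∀ c ≤ m, v c = w c) : Level b m v' v where
  diam := fun c hc => by rw [h2 c hc]; exact h.diam c hc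
  disj := fun c hc c' hc' hne => by rw [h2 c hc, h2 c' hc']; exact h.disj c hc c' hc' hne
  next := fun c hc => by rw [h2 c hc.le, h1 c hc]; exact h.next c hc
  start := by rw [h2 m le_rfl]; exact h.start

/-- The level `w` at stage `m` is good for the dense open set `O` of `n`-tuples. -/
def GoodFor (b : ℕ → Set X) (m : ℕ) {n : ℕ} (O : Set (Fin n → X)) (w : ℕ → ℕ) : Prop :=
  ∀ σ : Fin n → Fin (m + 1), Function.Injective σ → ∀ x : Fin n → X,
    (∀ k, x k ∈ b (w (σ k))) → x ∈ O

theorem GoodFor.mono {b : ℕ → Set X} {m n : ℕ} {O : Set (Fin n → X)} {w w' : ℕ → ℕ}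
    (h : Shr b w' w) (hg : GoodFor b m O w) : GoodFor b m O w' :=
  fun σ hσ x hx => hg σ hσ x (fun k => h _ (hx k))

theorem exists_shr_goodFor {b : ℕ → Set X} (hb : GoodBase b) (m : ℕ) {n : ℕ}
    {O : Set (Fin n → X)} (hO : IsOpen O) (hd : Dense O) (w : ℕ → ℕ) :
    ∃ w', Shr b w' w ∧ GoodFor b m O w' := by
  classical
  obtain ⟨w', h1, h2⟩ := exists_shr_finset (b := b) (α := Fin n → Fin (m + 1))
    (fun σ w => Function.Injective σ → ∀ x : Fin n → X, (∀ k, x k ∈ b (w (σ k))) → x ∈ O)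
    (fun σ w w' hs h hσ x hx => h hσ x (fun k => hs _ (hx k)))
    (fun σ w => by
      by_cases hσ : Function.Injective σ
      · obtain ⟨w', h1, h2⟩ := exists_shr_box hb hO hd (fun k => (σ k : ℕ))
          (fun a c h => hσ (Fin.ext h)) w
        exact ⟨w', h1, fun _ => h2⟩
      · exact ⟨w, Shr.refl b w, fun h => absurd h hσ⟩) Finset.univ w
  exact ⟨w', h1, fun σ hσ x hx => h2 σ (Finset.mem_univ _) hσ x hx⟩

/-- Extending the scheme by one level which is good for finitely many dense open sets. -/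
theorem exists_level {b : ℕ → Set X} (hb : GoodBase b)
    (hcr : ∀ x : X, (nhdsWithin x {x}ᶜ).NeBot) {ι : Type} (n : ι → ℕ)
    (O : ∀ i, Set (Fin (n i) → X)) (hO : ∀ i, IsOpen (O i)) (hd : ∀ i, Dense (O i))
    (F : Finset ι) (m : ℕ) (w' : ℕ → ℕ) :
    ∃ w, Level b m w' w ∧ ∀ i ∈ F, GoodFor b m (O i) w := by
  classical
  have hpos : (0 : ℝ) < 1 / ((m : ℝ) + 1) := by positivity
  -- the starting sets
  let T : ℕ → ℕ := fun c => if c < m then w' c else (Nat.unpair m).1
  have h0 : ∀ c, ∃ k, closure (b k) ⊆ b (T c) ∧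
      ∀ y ∈ b k, ∀ z ∈ b k, dist y z < 1 / ((m : ℝ) + 1) := by
    intro c
    obtain ⟨x, hx⟩ := hb.nonempty (T c)
    obtain ⟨k, _, h2, h3⟩ := hb.pick (b (T c)) x _ (hb.isOpen _) hx hpos
    exact ⟨k, h2, h3⟩
  choose w0 hw0 hw0' using h0
  obtain ⟨w1, h1, h1'⟩ := exists_shr_finset (b := b) (α := Fin (m + 1) × Fin (m + 1))
    (fun p w => p.1 ≠ p.2 → Disjoint (b (w p.1)) (b (w p.2)))
    (fun p w w' hs h hne => (h hne).mono (hs _) (hs _))
    (fun p w => by
      by_cases hp : p.1 = p.2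
      · exact ⟨w, Shr.refl b w, fun h => absurd hp h⟩
      · obtain ⟨w', h1, h2⟩ := exists_shr_disjoint hb hcr p.1 p.2
          (fun h => hp (Fin.ext h)) w
        exact ⟨w', h1, fun _ => h2⟩) Finset.univ w0
  obtain ⟨w2, h2, h2'⟩ := exists_shr_finset (b := b) (α := ι)
    (fun i w => GoodFor b m (O i) w)
    (fun i w w' hs h => GoodFor.mono hs h)
    (fun i w => exists_shr_goodFor hb m (hO i) (hd i) w) F w1
  have h20 : Shr b w2 w0 := h2.trans h1
  refine ⟨w2, ⟨?_, ?_, ?_, ?_⟩, h2'⟩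
  · intro c _ y hy z hz
    exact hw0' c y (h20 c hy) z (h20 c hz)
  · intro c hc c' hc' hne
    have := h1' (⟨c, by omega⟩, ⟨c', by omega⟩) (Finset.mem_univ _) (by simpa using hne)
    exact this.mono (h2 c) (h2 c')
  · intro c hc
    have := (closure_mono (h20 c)).trans (hw0 c)
    simp only [T] at this
    rwa [if_pos hc] at this
  · have := (closure_mono (h20 m)).trans (hw0 m)
    simp only [T] at this
    rwa [if_neg (lt_irrefl m)] at this

end Shrink

end Pool.Agent.H817R3
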