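import Mathlib
import Pool.Agent.H817R3.MACountable
import Pool.Agent.H817R3.Shrink

/-!
# A Cohen-generic scheme of shrinking open sets, and nowhere meagre free sets
-/

set_option autoImplicit false

namespace Pool.Agent.H817R3

open Set Filter Topology

section Scheme

variable {X : Type} [MetricSpace X]

/-- Entry of a list of lists. -/
def WL (L : List (List ℕ)) (m c : ℕ) : ℕ := (L.getD m []).getD c 0

/-- Valid finite schemes. -/
def Valid (b : ℕ → Set X) (L : List (List ℕ)) : Prop :=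
  ∀ m < L.length, Level b m (WL L (m - 1)) (WL L m)

theorem WL_of_isPrefix {L L' : List (List ℕ)} (h : L <+: L') {m : ℕ} (hm : m < L.length) :
    WL L' m = WL L m := by
  obtain ⟨t, rfl⟩ := h
  funext c
  unfold WL
  rw [List.getD_append _ _ _ _ hm]

theorem WL_append_last (L : List (List ℕ)) (w : ℕ → ℕ) (c : ℕ) (hc : c ≤ L.length) :
    WL (L ++ [(List.range (L.length + 1)).map w]) L.length c = w c := by
  unfold WL
  rw [List.getD_append_right _ _ _ _ le_rfl]
  simp only [Nat.sub_self, List.getD_cons_zero]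
  rw [List.getD_eq_getElem _ _ (by simp; omega)]
  simp

theorem Valid.append {b : ℕ → Set X} {L : List (List ℕ)} (hL : Valid b L) {w : ℕ → ℕ}
    (hw : Level b L.length (WL L (L.length - 1)) w) :
    Valid b (L ++ [(List.range (L.length + 1)).map w]) := by
  intro m hm
  rw [List.length_append, List.length_singleton] at hm
  rcases Nat.lt_succ_iff_lt_or_eq.1 hm with h | rfl
  · rw [WL_of_isPrefix (List.prefix_append _ _) h,
      WL_of_isPrefix (List.prefix_append _ _) (show m - 1 < L.length by omega)]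
    exact hL m h
  · refine hw.congr ?_ (fun c hc => WL_append_last L w c hc)
    intro c hc
    rw [WL_of_isPrefix (List.prefix_append _ _) (show L.length - 1 < L.length by omega)]

/-- The poset of valid finite schemes. -/
def SP (b : ℕ → Set X) : Type := {L : List (List ℕ) // Valid b L}

instance (b : ℕ → Set X) : Preorder (SP b) where
  le q p := p.1 <+: q.1
  le_refl _ := List.prefix_rfl
  le_trans _ _ _ h1 h2 := List.IsPrefix.trans h2 h1

instance (b : ℕ → Set X) : Countable (SP b) := by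
  unfold SP
  infer_instance

instance (b : ℕ → Set X) : Nonempty (SP b) := ⟨⟨[], fun m hm => by simp at hm⟩⟩

theorem exists_long {b : ℕ → Set X} (hb : GoodBase b)
    (hcr : ∀ x : X, (nhdsWithin x {x}ᶜ).NeBot) (k : ℕ) (L : List (List ℕ)) (hL : Valid b L) :
    ∃ L', L <+: L' ∧ Valid b L' ∧ k ≤ L'.length := by
  induction k with
  | zero => exact ⟨L, List.prefix_rfl, hL, Nat.zero_le _⟩
  | succ k ih =>
    obtain ⟨L1, h1, h2, h3⟩ := ih
    obtain ⟨w, hw, -⟩ := exists_level hb hcr (ι := Empty) (fun _ => 0) (fun e => e.elim)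
      (fun e => e.elim) (fun e => e.elim) ∅ L1.length (WL L1 (L1.length - 1))
    refine ⟨_, h1.trans (List.prefix_append _ _), h2.append hw, ?_⟩
    rw [List.length_append, List.length_singleton]
    omega

/-- The generic scheme. -/
theorem exists_scheme {b : ℕ → Set X} (hb : GoodBase b)
    (hcr : ∀ x : X, (nhdsWithin x {x}ᶜ).NeBot) {ι : Type} (n : ι → ℕ)
    (O : ∀ i, ℕ → Set (Fin (n i) → X)) (hO : ∀ i m, IsOpen (O i m)) (hd : ∀ i m, Dense (O i m))
    (hcov : ∀ M : ι → Set ℝ, (∀ i, IsMeagre (M i)) → (⋃ i, M i) ≠ Set.univ) :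
    ∃ W : ℕ → ℕ → ℕ, (∀ m, Level b m (W (m - 1)) (W m)) ∧
      ∀ (F : Finset ι) (k : ℕ), ∃ m ≥ k, ∀ i ∈ F, GoodFor b m (O i m) (W m) := by
  classical
  let D : Finset ι × ℕ → Set (SP b) := fun j =>
    {L | ∃ m ≥ j.2, m < L.1.length ∧ ∀ i ∈ j.1, GoodFor b m (O i m) (WL L.1 m)}
  have hD : ∀ j (p : SP b), ∃ q ≤ p, q ∈ D j := by
    rintro ⟨F, k⟩ ⟨L, hL⟩
    obtain ⟨L1, h1, h2, h3⟩ := exists_long hb hcr k L hL
    obtain ⟨w, hw, hg⟩ := exists_level hb hcr n (fun i => O i L1.length)
      (fun i => hO i _) (fun i => hd i _) F L1.length (WL L1 (L1.length - 1))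
    refine ⟨⟨_, h2.append hw⟩, h1.trans (List.prefix_append _ _), L1.length, h3, ?_, ?_⟩
    · simp
    · intro i hi σ hσ x hx
      refine hg i hi σ hσ x (fun k => ?_)
      have := hx k
      rwa [WL_append_last L1 w _ (by have := (σ k).2; omega)] at this
  obtain ⟨p, hp, hpD⟩ := ma_countable (cov_finset hcov) D hD
  -- the lengths are unbounded
  have hlen : ∀ m, ∃ N, m < (p N).1.length := by
    intro m
    obtain ⟨N, m', h1, h2, -⟩ := hpD (∅, m)
    exact ⟨N, by simp only at h1; omega⟩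
  choose N hN using hlen
  have hcoh : ∀ m N1 N2, m < (p N1).1.length → m < (p N2).1.length →
      WL (p N1).1 m = WL (p N2).1 m := by
    intro m N1 N2 h1 h2
    rcases le_total N1 N2 with h | h
    · exact (WL_of_isPrefix (hp h) h1).symm
    · exact WL_of_isPrefix (hp h) h2
  refine ⟨fun m => WL (p (N m)).1 m, ?_, ?_⟩
  · intro m
    have h1 := (p (N m)).2 m (hN m)
    have h2 : WL (p (N (m - 1))).1 (m - 1) = WL (p (N m)).1 (m - 1) :=
      hcoh _ _ _ (hN _) (lt_of_le_of_lt (Nat.sub_le _ _) (hN m))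
    simp only
    rw [h2]
    exact h1
  · intro F k
    obtain ⟨N1, m, h1, h2, h3⟩ := hpD (F, k)
    refine ⟨m, h1, fun i hi => ?_⟩
    simp only
    rw [hcoh m (N m) N1 (hN m) h2]
    exact h3 i hi

/-- Points following the scheme on an ultrafilter-large set of stages are nowhere meagre. -/
theorem not_meagre_of_scheme [CompleteSpace X] {b : ℕ → Set X} (hb : GoodBase b)
    (W : ℕ → ℕ → ℕ) (hW : ∀ m, Level b m (W (m - 1)) (W m)) (U : Ultrafilter ℕ)
    (hU : (U : Filter ℕ) ≤ atTop) (V : Set X) (hV : IsOpen V) (hne : V.Nonempty) :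
    ¬ IsMeagre ({x | {m | ∃ c ≤ m, x ∈ b (W m c)} ∈ U} ∩ V) := by
  classical
  intro hM
  obtain ⟨O, hOo, hOd, hOa, hOx⟩ := exists_seq_of_isMeagre hM
  -- threads are decreasing
  have hthr : ∀ c m, c ≤ m → closure (b (W (m + 1) c)) ⊆ b (W m c) := by
    intro c m hcm
    have := (hW (m + 1)).next c (by omega)
    simpa using this
  have hthr' : ∀ c m m', c ≤ m → m ≤ m' → b (W m' c) ⊆ b (W m c) := by
    intro c m m' hcm hmm
    induction m', hmm using Nat.le_induction with
    | base => exact subset_rfl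
    | succ k hk ih => exact (subset_closure.trans (hthr c k (hcm.trans hk))).trans ih
  have hthr'' : ∀ c m m', c ≤ m → m < m' → closure (b (W m' c)) ⊆ b (W m c) := by
    intro c m m' hcm hmm
    exact (closure_mono (hthr' c (m + 1) m' (by omega) hmm)).trans (hthr c m hcm)
  -- the generic step
  have hgen : ∀ j e : ℕ, ∃ e' > e, ∃ g : ℕ → ℕ, ∀ c ≤ e, g c ≤ e' ∧
      closure (b (W e' (g c))) ⊆ b (W e c) ∩ O j := by
    intro j e
    have h1 : ∀ c, ∃ k, closure (b k) ⊆ b (W e c) ∩ O j := by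
      intro c
      obtain ⟨x, hx⟩ := (hOd j).inter_open_nonempty _ (hb.isOpen (W e c)) (hb.nonempty _)
      obtain ⟨k, _, h2, _⟩ := hb.pick (b (W e c) ∩ O j) x 1 ((hb.isOpen _).inter (hOo j)) hx one_pos
      exact ⟨k, h2⟩
    choose κ hκ using h1
    let g : ℕ → ℕ := fun c => Nat.pair (κ c) (e + 1)
    refine ⟨(Finset.range (e + 1)).sup g + (e + 1), by omega, g, ?_⟩
    intro c hc
    have h3 : g c ≤ (Finset.range (e + 1)).sup g :=
      Finset.le_sup (f := g) (Finset.mem_range.2 (by omega))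
    refine ⟨by omega, ?_⟩
    have h4 : closure (b (W (g c) (g c))) ⊆ b (κ c) := by
      have := (hW (g c)).start
      simpa [g] using this
    have h5 : b (W ((Finset.range (e + 1)).sup g + (e + 1)) (g c)) ⊆ b (W (g c) (g c)) :=
      hthr' _ _ _ le_rfl (by omega)
    exact ((closure_mono h5).trans h4).trans (subset_closure.trans (hκ c))
  choose nx hnx g hg using hgen
  -- the start
  obtain ⟨x0, hx0⟩ := hne
  obtain ⟨k0, _, hk0, _⟩ := hb.pick V x0 1 hV hx0 one_pos
  let e0 : ℕ := Nat.pair k0 0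
  have he0 : b (W e0 e0) ⊆ V := by
    have := (hW e0).start
    simp only [e0, Nat.unpair_pair] at this
    exact (subset_closure.trans this).trans (subset_closure.trans hk0)
  let E : ℕ → ℕ := fun j => Nat.rec e0 (fun j e => nx j e) j
  have hE0 : E 0 = e0 := rfl
  have hEs : ∀ j, E (j + 1) = nx j (E j) := fun j => rfl
  have hEmono : StrictMono E := strictMono_nat_of_lt_succ (fun j => by rw [hEs]; exact hnx _ _)
  -- the two large sets
  let Bt : ℕ → Set ℕ := fun t => {m | ∃ j, j % 2 ≠ t ∧ E j < m ∧ m ≤ E (j + 1)}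
  have hBt : Bt 0 ∈ U ∨ Bt 1 ∈ U := by
    rw [← Ultrafilter.union_mem_iff]
    have h1 : Ioi (E 0) ∈ (U : Filter ℕ) := hU (Ioi_mem_atTop _)
    refine mem_of_superset h1 ?_
    intro m hm
    have hm' : E 0 < m := hm
    -- the least j with m ≤ E (j+1)
    have hex : ∃ j, m ≤ E (j + 1) := ⟨m, (hEmono.id_le m).trans (hEmono.monotone (Nat.le_succ m))⟩
    have h2 := Nat.find_spec hex
    have h3 : E (Nat.find hex) < m := by
      rcases Nat.eq_zero_or_pos (Nat.find hex) with h | h
      · rw [h]; exact hm'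
      · have := Nat.find_min hex (m := Nat.find hex - 1) (by omega)
        rw [Nat.sub_add_cancel h] at this
        omega
    rcases Nat.mod_two_eq_zero_or_one (Nat.find hex) with h | h
    · exact Or.inr ⟨_, by omega, h3, h2⟩
    · exact Or.inl ⟨_, by omega, h3, h2⟩
  have hex : ∃ t < 2, Bt t ∈ U := by
    rcases hBt with h | h
    · exact ⟨0, by norm_num, h⟩
    · exact ⟨1, by norm_num, h⟩
  obtain ⟨t, ht, hBU⟩ := hex
  let C : ℕ → ℕ := fun j => Nat.rec e0 (fun j c => if j % 2 = t then g j (E j) c else c) j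
  have hC0 : C 0 = e0 := rfl
  have hCs : ∀ j, C (j + 1) = if j % 2 = t then g j (E j) (C j) else C j := fun j => rfl
  have hCE : ∀ j, C j ≤ E j := by
    intro j
    induction j with
    | zero => exact le_rfl
    | succ j ih =>
      rw [hCs, hEs]
      split_ifs
      · exact (hg j (E j) (C j) ih).1
      · exact ih.trans (hnx _ _).le
  have hnest : ∀ j, closure (b (W (E (j + 1)) (C (j + 1)))) ⊆ b (W (E j) (C j)) := by
    intro j
    rw [hCs]
    split_ifs with h
    · rw [hEs]
      exact (hg j (E j) (C j) (hCE j)).2.trans inter_subset_left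
    · exact hthr'' _ _ _ (hCE j) (hEmono (Nat.lt_succ_self j))
  have hnestm : ∀ j k, j ≤ k → b (W (E k) (C k)) ⊆ b (W (E j) (C j)) := by
    intro j k hjk
    induction k, hjk using Nat.le_induction with
    | base => exact subset_rfl
    | succ k _ ih => exact (subset_closure.trans (hnest k)).trans ih
  -- a point in the intersection
  choose y hy using fun j => hb.nonempty (W (E j) (C j))
  have hcau : CauchySeq y := by
    refine cauchySeq_of_le_tendsto_0 (fun N : ℕ => 1 / ((N : ℝ) + 1)) ?_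
      tendsto_one_div_add_atTop_nhds_zero_nat
    intro k l N hk hl
    have h1 := (hW (E N)).diam (C N) (hCE N) (y k) (hnestm N k hk (hy k)) (y l)
      (hnestm N l hl (hy l))
    have h2 : (1 : ℝ) / ((Nat.cast (E N) : ℝ) + 1) ≤ 1 / ((N : ℝ) + 1) := by
      apply one_div_le_one_div_of_le (by positivity)
      have h0 : (N : ℝ) ≤ (Nat.cast (E N) : ℝ) := Nat.cast_le.2 (hEmono.id_le N)
      linarith
    linarith
  obtain ⟨x, hx⟩ := cauchySeq_tendsto_of_complete hcau
  have hxj : ∀ j, x ∈ b (W (E j) (C j)) := by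
    intro j
    apply hnest j
    refine mem_closure_of_tendsto hx ?_
    filter_upwards [eventually_ge_atTop (j + 1)] with k hk
    exact hnestm _ _ hk (hy k)
  have hxO : ∀ j, x ∈ O j := by
    intro j
    have h1 : (2 * j + t) % 2 = t := by omega
    have h2 := hxj (2 * j + t + 1)
    rw [hCs, if_pos h1, hEs] at h2
    have h3 := (hg (2 * j + t) (E (2 * j + t)) (C (2 * j + t)) (hCE _)).2 (subset_closure h2)
    exact hOa (by omega) h3.2
  refine hOx x hxO ⟨?_, he0 (hxj 0)⟩
  refine mem_of_superset hBU ?_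
  rintro m ⟨j, hj, h1, h2⟩
  refine ⟨C j, (hCE j).trans h1.le, ?_⟩
  have h3 := hxj (j + 1)
  rw [hCs, if_neg hj] at h3
  exact hthr' _ _ _ ((hCE j).trans h1.le) h2 h3

/-- Nowhere meagre free sets in crowded complete separable metric spaces. -/
theorem exists_free [CompleteSpace X] [SecondCountableTopology X] [Nonempty X]
    (hcr : ∀ x : X, (nhdsWithin x {x}ᶜ).NeBot) {ι : Type} (n : ι → ℕ)
    (R : ∀ i, Set (Fin (n i) → X)) (hR : ∀ i, IsMeagre (R i))
    (hcov : ∀ M : ι → Set ℝ, (∀ i, IsMeagre (M i)) → (⋃ i, M i) ≠ Set.univ) :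
    ∃ A : Set X, (∀ U : Set X, IsOpen U → U.Nonempty → ¬ IsMeagre (A ∩ U)) ∧
      ∀ (i : ι) (x : Fin (n i) → X), Function.Injective x → (∀ k, x k ∈ A) → x ∉ R i := by
  classical
  obtain ⟨b, hb⟩ := exists_goodBase (X := X)
  choose O hOo hOd hOa hOx using fun i => exists_seq_of_isMeagre (hR i)
  obtain ⟨W, hW, hgood⟩ := exists_scheme hb hcr n O hOo hOd hcov
  -- the ultrafilter
  let S : Finset ι × ℕ → Set ℕ := fun j => {m | j.2 ≤ m ∧ ∀ i ∈ j.1, GoodFor b m (O i m) (W m)}
  have hne : (⨅ j, 𝓟 (S j)).NeBot := by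
    apply iInf_neBot_of_directed'
    · rintro ⟨F, k⟩ ⟨F', k'⟩
      refine ⟨(F ∪ F', max k k'), ?_, ?_⟩
      · simp only [ge_iff_le, le_principal_iff, mem_principal]
        rintro m ⟨h1, h2⟩
        exact ⟨le_trans (le_max_left _ _) h1, fun i hi => h2 i (Finset.mem_union_left _ hi)⟩
      · simp only [ge_iff_le, le_principal_iff, mem_principal]
        rintro m ⟨h1, h2⟩
        exact ⟨le_trans (le_max_right _ _) h1, fun i hi => h2 i (Finset.mem_union_right _ hi)⟩
    · rintro ⟨F, k⟩
      rw [principal_neBot_iff]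
      obtain ⟨m, h1, h2⟩ := hgood F k
      exact ⟨m, h1, h2⟩
  let U : Ultrafilter ℕ := @Ultrafilter.of _ (⨅ j, 𝓟 (S j)) hne
  have hUle : (U : Filter ℕ) ≤ ⨅ j, 𝓟 (S j) := @Ultrafilter.of_le _ _ hne
  have hUS : ∀ j, S j ∈ (U : Filter ℕ) := fun j =>
    hUle (mem_iInf_of_mem j (mem_principal_self _))
  have hU : (U : Filter ℕ) ≤ atTop := by
    intro s hs
    obtain ⟨k, hk⟩ := mem_atTop_sets.1 hs
    exact mem_of_superset (hUS (∅, k)) (fun m hm => hk m hm.1)
  refine ⟨{x | {m | ∃ c ≤ m, x ∈ b (W m c)} ∈ U}, ?_, ?_⟩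
  · intro V hV hVne
    exact not_meagre_of_scheme hb W hW U hU V hV hVne
  · intro i x hinj hxA
    apply hOx i x
    intro m0
    have h1 : ∀ᶠ m in (U : Filter ℕ), ∀ k, ∃ c ≤ m, x k ∈ b (W m c) :=
      eventually_all.2 (fun k => hxA k)
    have h2 : ∀ᶠ m in (U : Filter ℕ), GoodFor b m (O i m) (W m) :=
      mem_of_superset (hUS ({i}, 0)) (fun m hm => hm.2 i (Finset.mem_singleton_self i))
    have h3 : ∀ᶠ m : ℕ in atTop, ∀ k l, k ≠ l → 1 / ((m : ℝ) + 1) ≤ dist (x k) (x l) := by
      rw [eventually_all]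
      intro k
      rw [eventually_all]
      intro l
      by_cases hkl : k = l
      · exact Eventually.of_forall (fun m h => absurd hkl h)
      · have hpos : 0 < dist (x k) (x l) := dist_pos.2 (fun h => hkl (hinj h))
        have := (tendsto_one_div_add_atTop_nhds_zero_nat (𝕜 := ℝ)).eventually_lt_const hpos
        filter_upwards [this] with m hm _
        exact hm.le
    obtain ⟨m, ⟨⟨hm1, hm2⟩, hm3⟩, hm4⟩ :=
      (((h1.and h2).and (hU h3)).and (hU (eventually_ge_atTop m0))).exists
    choose c hc hxc using hm1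
    have hcinj : Function.Injective (fun k => (⟨c k, by have := hc k; omega⟩ : Fin (m + 1))) := by
      intro k l hkl
      by_contra hne
      have hkl' : c k = c l := by simpa using hkl
      have h5 := (hW m).diam (c k) (hc k) (x k) (hxc k) (x l) (by rw [hkl']; exact hxc l)
      have h6 := hm3 k l hne
      linarith
    exact hOa i hm4 (hm2 _ hcinj x hxc)

end Scheme

end Pool.Agent.H817R3
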